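import Mathlib

set_option autoImplicit false

namespace Pool.Agent.H.MP_e86a57_co

def valid (a K : ℕ) (p : ℕ × ℕ) : Prop :=
  (p.1 ≤ K + 3 ∧ p.2 ≤ 1) ∨ (p.1 = 1 ∧ 2 ≤ p.2 ∧ p.2 ≤ a + 2) ∨ (2 ≤ p.1 ∧ p.1 ≤ K + 1 ∧ p.2 = 2)

@[ext] structure L (a K : ℕ) where
  i : ℕ
  c : ℕ
  ok : valid a K (i, c)

variable {a K : ℕ}

def le (u w : L a K) : Prop :=
  (u.i = w.i ∧ u.c = w.c) ∨ (u.c = 0 ∧ u.i ≤ w.i) ∨
    (w.c = 1 ∧ ((u.c = 1 ∧ u.i ≤ w.i) ∨ u.i < w.i))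

instance (u w : L a K) : Decidable (le u w) := by unfold le; infer_instance

def up (u : L a K) : ℕ := if 2 ≤ u.c then u.i + 1 else u.i

lemma up_le (u : L a K) : up u ≤ K + 3 := by
  have := u.ok
  unfold up valid at *
  split_ifs <;> simp only at this <;> omega

lemma i_le (u : L a K) : u.i ≤ K + 3 := by
  have := u.ok
  unfold valid at *
  simp only at this
  omega

def g (i c : ℕ) (hi : i ≤ K + 3) (hc : c ≤ 1) : L a K := ⟨i, c, Or.inl ⟨hi, hc⟩⟩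

def sup (u w : L a K) : L a K :=
  if le u w then w else if le w u then u
  else g (max (up u) (up w)) 1 (max_le (up_le u) (up_le w)) le_rfl

def inf (u w : L a K) : L a K :=
  if le u w then u else if le w u then w
  else g (min u.i w.i) 0 ((min_le_left _ _).trans (i_le u)) (Nat.zero_le _)

lemma rf (u : L a K) : le u u := Or.inl ⟨rfl, rfl⟩

lemma le_g1 (u : L a K) (j : ℕ) (hj : j ≤ K + 3) (h : up u ≤ j) : le u (g j 1 hj le_rfl) := by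
  unfold up at h
  show (u.i = j ∧ u.c = 1) ∨ (u.c = 0 ∧ u.i ≤ j) ∨ ((1 : ℕ) = 1 ∧ ((u.c = 1 ∧ u.i ≤ j) ∨ u.i < j))
  split_ifs at h <;> omega

lemma g0_le (u : L a K) (j : ℕ) (hj : j ≤ K + 3) (h : j ≤ u.i) :
    le (g j 0 hj (Nat.zero_le _)) u := Or.inr (Or.inl ⟨rfl, h⟩)

lemma j1 (i c j d k e : ℕ)
    (h1 : ¬ ((i = j ∧ c = d) ∨ (c = 0 ∧ i ≤ j) ∨ (d = 1 ∧ ((c = 1 ∧ i ≤ j) ∨ i < j))))
    (h2 : ¬ ((j = i ∧ d = c) ∨ (d = 0 ∧ j ≤ i) ∨ (c = 1 ∧ ((d = 1 ∧ j ≤ i) ∨ j < i))))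
    (h3 : (i = k ∧ c = e) ∨ (c = 0 ∧ i ≤ k) ∨ (e = 1 ∧ ((c = 1 ∧ i ≤ k) ∨ i < k)))
    (h4 : (j = k ∧ d = e) ∨ (d = 0 ∧ j ≤ k) ∨ (e = 1 ∧ ((d = 1 ∧ j ≤ k) ∨ j < k))) :
    e = 1 ∧ (if 2 ≤ c then i + 1 else i) ≤ k ∧ (if 2 ≤ d then j + 1 else j) ≤ k := by
  split_ifs <;> omega

lemma j2 (i c j d k e : ℕ)
    (h1 : ¬ ((i = j ∧ c = d) ∨ (c = 0 ∧ i ≤ j) ∨ (d = 1 ∧ ((c = 1 ∧ i ≤ j) ∨ i < j))))
    (h2 : ¬ ((j = i ∧ d = c) ∨ (d = 0 ∧ j ≤ i) ∨ (c = 1 ∧ ((d = 1 ∧ j ≤ i) ∨ j < i))))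
    (h3 : (k = i ∧ e = c) ∨ (e = 0 ∧ k ≤ i) ∨ (c = 1 ∧ ((e = 1 ∧ k ≤ i) ∨ k < i)))
    (h4 : (k = j ∧ e = d) ∨ (e = 0 ∧ k ≤ j) ∨ (d = 1 ∧ ((e = 1 ∧ k ≤ j) ∨ k < j))) :
    e = 0 ∧ k ≤ i ∧ k ≤ j := by
  omega

instance : Lattice (L a K) where
  le := le
  le_refl u := rf u
  le_trans u v w h1 h2 := by unfold le at *; omega
  le_antisymm u v h1 h2 := by unfold le at *; ext <;> omega
  sup := sup
  inf := inf
  le_sup_left u w := by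
    unfold sup; split_ifs with h1 h2
    · exact h1
    · exact rf u
    · exact le_g1 _ _ _ (le_max_left _ _)
  le_sup_right u w := by
    unfold sup; split_ifs with h1 h2
    · exact rf w
    · exact h2
    · exact le_g1 _ _ _ (le_max_right _ _)
  sup_le u w z h3 h4 := by
    unfold sup; split_ifs with h1 h2
    · exact h4
    · exact h3
    · obtain ⟨e1, e2, e3⟩ := j1 _ _ _ _ _ _ h1 h2 h3 h4
      exact Or.inr (Or.inr ⟨e1, Or.inl ⟨rfl, max_le e2 e3⟩⟩)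
  inf_le_left u w := by
    unfold inf; split_ifs with h1 h2
    · exact rf u
    · exact h2
    · exact g0_le _ _ _ (min_le_left _ _)
  inf_le_right u w := by
    unfold inf; split_ifs with h1 h2
    · exact h1
    · exact rf w
    · exact g0_le _ _ _ (min_le_right _ _)
  le_inf z u w h3 h4 := by
    unfold inf; split_ifs with h1 h2
    · exact h3
    · exact h4
    · obtain ⟨e1, e2, e3⟩ := j2 _ _ _ _ _ _ h1 h2 h3 h4
      exact Or.inr (Or.inl ⟨e1, le_min e2 e3⟩)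

lemma le_def (u w : L a K) : u ≤ w ↔ (u.i = w.i ∧ u.c = w.c) ∨ (u.c = 0 ∧ u.i ≤ w.i) ∨
    (w.c = 1 ∧ ((u.c = 1 ∧ u.i ≤ w.i) ∨ u.i < w.i)) := Iff.rfl

instance : BoundedOrder (L a K) where
  top := g (K + 3) 1 le_rfl le_rfl
  bot := g 0 0 (Nat.zero_le _) (Nat.zero_le _)
  le_top u := le_g1 u _ _ (up_le u)
  bot_le u := g0_le u _ _ (Nat.zero_le _)

lemma top_def : (⊤ : L a K) = g (K + 3) 1 le_rfl le_rfl := rfl
lemma bot_def : (⊥ : L a K) = g 0 0 (Nat.zero_le _) (Nat.zero_le _) := rfl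

/-- description of the join -/
lemma sup_spec (u w : L a K) :
    (u ≤ w ∧ u ⊔ w = w) ∨ (w ≤ u ∧ u ⊔ w = u) ∨ (¬ u ≤ w ∧ ¬ w ≤ u ∧ (u ⊔ w).c = 1 ∧
      (u ⊔ w).i = max (if 2 ≤ u.c then u.i + 1 else u.i) (if 2 ≤ w.c then w.i + 1 else w.i)) := by
  by_cases h1 : u ≤ w
  · exact Or.inl ⟨h1, sup_eq_right.2 h1⟩
  · by_cases h2 : w ≤ u
    · exact Or.inr (Or.inl ⟨h2, sup_eq_left.2 h2⟩)
    · have e : u ⊔ w = g (max (up u) (up w)) 1 (max_le (up_le u) (up_le w)) le_rfl :=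
        (if_neg h1).trans (if_neg h2)
      exact Or.inr (Or.inr ⟨h1, h2, by rw [e]; rfl, by rw [e]; rfl⟩)

lemma inf_spec (u w : L a K) :
    (u ≤ w ∧ u ⊓ w = u) ∨ (w ≤ u ∧ u ⊓ w = w) ∨ (¬ u ≤ w ∧ ¬ w ≤ u ∧ (u ⊓ w).c = 0 ∧
      (u ⊓ w).i = min u.i w.i) := by
  by_cases h1 : u ≤ w
  · exact Or.inl ⟨h1, inf_eq_left.2 h1⟩
  · by_cases h2 : w ≤ u
    · exact Or.inr (Or.inl ⟨h2, inf_eq_right.2 h2⟩)
    · have e : u ⊓ w = g (min u.i w.i) 0 ((min_le_left _ _).trans (i_le u)) (Nat.zero_le _) :=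
        (if_neg h1).trans (if_neg h2)
      exact Or.inr (Or.inr ⟨h1, h2, by rw [e]; rfl, by rw [e]; rfl⟩)

def S (a K : ℕ) : Finset (ℕ × ℕ) :=
  (Finset.range (K + 4) ×ˢ Finset.range 2 ∪ {1} ×ˢ Finset.Ico 2 (a + 3)) ∪
    Finset.Ico 2 (K + 2) ×ˢ {2}

lemma mem_S (p : ℕ × ℕ) : p ∈ S a K ↔ valid a K p := by
  simp only [S, valid, Finset.mem_union, Finset.mem_product, Finset.mem_range, Finset.mem_Ico,
    Finset.mem_singleton]
  omega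

def eS : L a K ≃ S a K where
  toFun u := ⟨(u.i, u.c), (mem_S _).2 u.ok⟩
  invFun p := ⟨p.1.1, p.1.2, (mem_S _).1 p.2⟩
  left_inv _ := rfl
  right_inv _ := rfl

instance : Fintype (L a K) := Fintype.ofEquiv _ eS.symm

lemma card_L : Fintype.card (L a K) = 3 * K + a + 9 := by
  rw [Fintype.card_congr eS, Fintype.card_coe, S, Finset.card_union_of_disjoint,
    Finset.card_union_of_disjoint]
  · simp; omega
  · rw [Finset.disjoint_left]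
    simp only [Finset.mem_product, Finset.mem_range, Finset.mem_Ico, Finset.mem_singleton]
    omega
  · rw [Finset.disjoint_left]
    simp only [Finset.mem_union, Finset.mem_product, Finset.mem_range, Finset.mem_Ico,
      Finset.mem_singleton]
    omega

end Pool.Agent.H.MP_e86a57_co
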