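import Mathlib
import Pool.Agent.H.MP_e86a57_co.Ladder

set_option autoImplicit false

namespace Pool.Agent.H.MP_e86a57_co

variable {a K : ℕ}

def b (i : ℕ) (h : i ≤ K + 3) : L a K := g i 0 h (Nat.zero_le _)
def t (i : ℕ) (h : i ≤ K + 3) : L a K := g i 1 h le_rfl

@[simp] lemma b_i (i : ℕ) (h : i ≤ K + 3) : (b i h : L a K).i = i := rfl
@[simp] lemma b_c (i : ℕ) (h : i ≤ K + 3) : (b i h : L a K).c = 0 := rfl
@[simp] lemma t_i (i : ℕ) (h : i ≤ K + 3) : (t i h : L a K).i = i := rfl
@[simp] lemma t_c (i : ℕ) (h : i ≤ K + 3) : (t i h : L a K).c = 1 := rfl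

lemma vv (u : L a K) : (u.i ≤ K + 3 ∧ u.c ≤ 1) ∨ (u.i = 1 ∧ 2 ≤ u.c ∧ u.c ≤ a + 2) ∨
    (2 ≤ u.i ∧ u.i ≤ K + 1 ∧ u.c = 2) := u.ok

lemma sup_eq' {u w z : L a K} (h1 : ¬ u ≤ w) (h2 : ¬ w ≤ u) (hc : z.c = 1)
    (hi : z.i = max (if 2 ≤ u.c then u.i + 1 else u.i) (if 2 ≤ w.c then w.i + 1 else w.i)) :
    u ⊔ w = z := by
  rcases sup_spec u w with h | h | h
  · exact absurd h.1 h1
  · exact absurd h.1 h2
  · ext
    · rw [h.2.2.2, hi]
    · rw [h.2.2.1, hc]

lemma inf_eq' {u w z : L a K} (h1 : ¬ u ≤ w) (h2 : ¬ w ≤ u) (hc : z.c = 0)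
    (hi : z.i = min u.i w.i) : u ⊓ w = z := by
  rcases inf_spec u w with h | h | h
  · exact absurd h.1 h1
  · exact absurd h.1 h2
  · ext
    · rw [h.2.2.2, hi]
    · rw [h.2.2.1, hc]

lemma tb_sup (i : ℕ) (h : i + 1 ≤ K + 3) :
    (t i (by omega) : L a K) ⊔ b (i + 1) h = t (i + 1) h :=
  sup_eq' (by simp [le_def]) (by simp [le_def]) rfl (by simp)

lemma tb_inf (i : ℕ) (h : i + 1 ≤ K + 3) :
    (t i (by omega) : L a K) ⊓ b (i + 1) h = b i (by omega) :=
  inf_eq' (by simp [le_def]) (by simp [le_def]) rfl (by simp)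

lemma fill (y : L a K) (hy : 2 ≤ y.c) (h : y.i + 1 ≤ K + 3) :
    y ⊔ t y.i (by omega) = t (y.i + 1) h ∧ y ⊓ t y.i (by omega) = b y.i (by omega) ∧
    y ⊔ b (y.i + 1) h = t (y.i + 1) h ∧ y ⊓ b (y.i + 1) h = b y.i (by omega) := by
  have n1 : ¬ y ≤ t y.i (by omega) := by simp [le_def]; omega
  have n2 : ¬ t y.i (by omega) ≤ y := by simp [le_def]; omega
  have n3 : ¬ y ≤ b (y.i + 1) h := by simp [le_def]; omega
  have n4 : ¬ b (y.i + 1) h ≤ y := by simp [le_def]
  exact ⟨sup_eq' n1 n2 rfl (by simp [hy]), inf_eq' n1 n2 rfl (by simp),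
    sup_eq' n3 n4 rfl (by simp [hy]), inf_eq' n3 n4 rfl (by simp)⟩

def y0 (i : ℕ) (h1 : 1 ≤ i) (h2 : i ≤ K + 1) : L a K :=
  ⟨i, 2, by
    show (i ≤ K + 3 ∧ 2 ≤ 1) ∨ (i = 1 ∧ 2 ≤ 2 ∧ 2 ≤ a + 2) ∨ (2 ≤ i ∧ i ≤ K + 1 ∧ 2 = 2)
    omega⟩

lemma b_le_t (i j : ℕ) (hi : i ≤ K + 3) (hj : j ≤ K + 3) (h : i ≤ j) :
    (b i hi : L a K) ≤ t j hj := by simp [le_def, h]
lemma b_le_b (i j : ℕ) (hi : i ≤ K + 3) (hj : j ≤ K + 3) (h : i ≤ j) :
    (b i hi : L a K) ≤ b j hj := by simp [le_def, h]
lemma t_le_t (i j : ℕ) (hi : i ≤ K + 3) (hj : j ≤ K + 3) (h : i ≤ j) :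
    (t i hi : L a K) ≤ t j hj := by simp [le_def, h]

abbrev E (a K : ℕ) := BoundedLatticeHom (L a K) (L a K)

def R (f : E a K) (i : ℕ) (h : i ≤ K + 3) : Prop := f (b i h) = f (t i h)

lemma R_step (f : E a K) (i : ℕ) (h : i + 1 ≤ K + 3) : R f i (by omega) ↔ R f (i + 1) h := by
  unfold R
  constructor
  · intro e
    rw [← tb_sup i h, map_sup, ← e, ← map_sup, sup_eq_right.2 (b_le_b _ _ _ _ (by omega))]
  · intro e
    rw [← tb_inf i h, map_inf, e, ← map_inf, inf_eq_left.2 (t_le_t _ _ _ _ (by omega))]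

lemma R_all (f : E a K) (i : ℕ) (h : i ≤ K + 3) : R f 0 (by omega) ↔ R f i h := by
  induction i with
  | zero => rfl
  | succ i ih => rw [ih (by omega), R_step]

def cf (z u : L a K) : L a K := if u.i = 0 then ⊥ else if u.i = K + 3 then ⊤ else z

lemma cf_mono (z : L a K) {u w : L a K} (h : u ≤ w) : cf z u ≤ cf z w := by
  have h1 : u.i ≤ w.i := by rw [le_def] at h; omega
  have := i_le w
  unfold cf
  split_ifs <;> first | omega | simp

def coll (z : L a K) : E a K where
  toFun := cf z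
  map_sup' u w := by
    rcases sup_spec u w with h | h | h
    · rw [h.2, sup_eq_right.2 (cf_mono z h.1)]
    · rw [h.2, sup_eq_left.2 (cf_mono z h.1)]
    · have h1 := vv u
      have h2 := vv w
      have h3 := h.2.2.2
      unfold cf
      split_ifs at h3 ⊢ <;> first | omega | simp
  map_inf' u w := by
    rcases inf_spec u w with h | h | h
    · rw [h.2, inf_eq_left.2 (cf_mono z h.1)]
    · rw [h.2, inf_eq_right.2 (cf_mono z h.1)]
    · have h1 := vv u
      have h2 := vv w
      have h3 := h.2.2.2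
      unfold cf
      split_ifs <;> first | omega | simp
  map_top' := by simp [cf, top_def, g]
  map_bot' := by simp [cf, bot_def, g]

lemma collapsed (f : E a K) (h : R f 0 (by omega)) : f = coll (f (b 1 (by omega))) := by
  have hR : ∀ i hi, R f i hi := fun i hi => (R_all f i hi).1 h
  have h1 : ∀ i (h1 : 1 ≤ i) (h2 : i ≤ K + 2), f (b i (by omega)) = f (b 1 (by omega)) := by
    intro i h1
    induction i, h1 using Nat.le_induction with
    | base => intro _; rfl
    | succ i h1 ih =>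
      intro h2
      obtain ⟨e1, -, -, e4⟩ := fill (y0 (a := a) (K := K) i h1 (by omega)) le_rfl
        (show i + 1 ≤ K + 3 by omega)
      have e1 : y0 i h1 (by omega) ⊔ t i (by omega) = (t (i + 1) (by omega) : L a K) := e1
      have e4 : y0 i h1 (by omega) ⊓ b (i + 1) (by omega) = (b i (by omega) : L a K) := e4
      have r1 : f (b (i + 1) (by omega)) = f (t (i + 1) (by omega)) := hR _ _
      have r0 : f (b i (by omega)) = f (t i (by omega)) := hR _ _
      have e5 : f (y0 i h1 (by omega)) = f (b i (by omega)) := by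
        rw [← e4, map_inf, r1, ← map_inf, inf_eq_left.2 (e1 ▸ le_sup_left)]
      rw [← ih (by omega), r1, ← e1, map_sup, e5, ← r0, sup_idem]
  ext1 u
  show f u = cf _ u
  have hv := vv u
  unfold cf
  split_ifs with c1 c2
  · have : u ≤ t 0 (by omega) := by simp [le_def]; omega
    have := OrderHomClass.mono f this
    rw [← hR 0 (by omega)] at this
    exact le_bot_iff.1 (this.trans_eq (map_bot f))
  · have : b (K + 3) le_rfl ≤ u := by simp [le_def]; omega
    have := OrderHomClass.mono f this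
    rw [hR (K + 3) le_rfl] at this
    exact top_le_iff.1 ((map_top f).symm.trans_le this)
  · have a1 : b 1 (by omega) ≤ u := by simp [le_def]; omega
    have a2 : u ≤ t (K + 2) (by omega) := by simp [le_def]; omega
    have a3 := OrderHomClass.mono f a2
    rw [← hR (K + 2) (by omega), h1 (K + 2) (by omega) le_rfl] at a3
    exact le_antisymm a3 (OrderHomClass.mono f a1)

lemma inc {α : Type} [Lattice α] {u v w β τ : α} (h1 : u ⊓ v = β) (h2 : u ⊓ w = β)
    (h3 : v ⊓ w = β) (h4 : u ⊔ v = τ) (h5 : u ⊔ w = τ) (hne : β ≠ τ) : ¬ u ≤ v := by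
  intro h
  rw [inf_eq_left.2 h] at h1
  rw [sup_eq_right.2 h] at h4
  subst h1 h4
  rw [sup_eq_right.2 (inf_eq_left.1 h2)] at h5
  subst h5
  exact hne (by rw [← h3, inf_idem])

lemma M3 {u v w β τ : L a K} (h1 : u ⊓ v = β) (h2 : u ⊓ w = β) (h3 : v ⊓ w = β)
    (h4 : u ⊔ v = τ) (h5 : u ⊔ w = τ) (h6 : v ⊔ w = τ) (hne : β ≠ τ) :
    β.c = 0 ∧ τ.c = 1 ∧ τ.i = β.i + 1 ∧ 1 ≤ β.i ∧ β.i ≤ K + 1 := by
  have n1 := inc h1 h2 h3 h4 h5 hne
  have n2 := inc ((inf_comm _ _).trans h1) h3 h2 ((sup_comm _ _).trans h4) h6 hne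
  have n3 := inc h2 h1 ((inf_comm _ _).trans h3) h5 h4 hne
  have n4 := inc ((inf_comm _ _).trans h2) ((inf_comm _ _).trans h3) h1
    ((sup_comm _ _).trans h5) ((sup_comm _ _).trans h6) hne
  have n5 := inc h3 ((inf_comm _ _).trans h1) ((inf_comm _ _).trans h2) h6
    ((sup_comm _ _).trans h4) hne
  have n6 := inc ((inf_comm _ _).trans h3) ((inf_comm _ _).trans h2) ((inf_comm _ _).trans h1)
    ((sup_comm _ _).trans h6) ((sup_comm _ _).trans h5) hne
  have s1 := ((sup_spec u v).resolve_left (fun h => n1 h.1)).resolve_left (fun h => n2 h.1)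
  have s2 := ((sup_spec u w).resolve_left (fun h => n3 h.1)).resolve_left (fun h => n4 h.1)
  have s3 := ((sup_spec v w).resolve_left (fun h => n5 h.1)).resolve_left (fun h => n6 h.1)
  have i1 := ((inf_spec u v).resolve_left (fun h => n1 h.1)).resolve_left (fun h => n2 h.1)
  have i2 := ((inf_spec u w).resolve_left (fun h => n3 h.1)).resolve_left (fun h => n4 h.1)
  have i3 := ((inf_spec v w).resolve_left (fun h => n5 h.1)).resolve_left (fun h => n6 h.1)
  rw [h4] at s1
  rw [h5] at s2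
  rw [h6] at s3
  rw [h1] at i1
  rw [h2] at i2
  rw [h3] at i3
  have a1 := s1.2.2.2
  have a2 := s2.2.2.2
  have a3 := s3.2.2.2
  have a4 := i1.2.2.2
  have a5 := i2.2.2.2
  have a6 := i3.2.2.2
  refine ⟨i1.2.2.1, s1.2.2.1, ?_⟩
  have v1 := vv u
  have v2 := vv v
  have v3 := vv w
  rw [le_def] at n1 n2 n3 n4 n5 n6
  clear s1 s2 s3 i1 i2 i3
  split_ifs at a1 a2 a3 <;> omega

lemma grid (f : E a K) (h : ¬ R f 0 (by omega)) (u : L a K) (hu : u.c ≤ 1) : f u = u := by
  have hR : ∀ i hi, ¬ R f i hi := fun i hi e => h ((R_all f i hi).2 e)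
  have hm := OrderHomClass.mono f
  have key : ∀ i (h1 : 1 ≤ i) (h2 : i ≤ K + 1),
      ((f (b i (by omega))).c = 0 ∧ (f (t (i + 1) (by omega))).c = 1 ∧
        (f (t (i + 1) (by omega))).i = (f (b i (by omega))).i + 1 ∧ 1 ≤ (f (b i (by omega))).i ∧
        (f (b i (by omega))).i ≤ K + 1) ∧ f (b i (by omega)) ≠ f (b (i + 1) (by omega)) := by
    intro i h1 h2
    obtain ⟨e1, e2, e3, e4⟩ := fill (y0 (a := a) (K := K) i h1 h2) le_rfl
      (show i + 1 ≤ K + 3 by omega)
    have e1 : y0 i h1 h2 ⊔ t i (by omega) = (t (i + 1) (by omega) : L a K) := e1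
    have e2 : y0 i h1 h2 ⊓ t i (by omega) = (b i (by omega) : L a K) := e2
    have e3 : y0 i h1 h2 ⊔ b (i + 1) (by omega) = (t (i + 1) (by omega) : L a K) := e3
    have e4 : y0 i h1 h2 ⊓ b (i + 1) (by omega) = (b i (by omega) : L a K) := e4
    constructor
    · refine M3 (u := f (y0 i h1 h2)) (v := f (t i (by omega))) (w := f (b (i + 1) (by omega)))
        (by rw [← map_inf, e2]) (by rw [← map_inf, e4]) (by rw [← map_inf, tb_inf])
        (by rw [← map_sup, e1]) (by rw [← map_sup, e3]) (by rw [← map_sup, tb_sup]) fun e => ?_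
      exact hR i (by omega) (le_antisymm (hm (b_le_t _ _ _ _ le_rfl))
        ((hm (t_le_t i (i + 1) _ _ (by omega))).trans_eq e.symm))
    · intro e
      have a1 : f (t (i + 1) (by omega)) = f (y0 i h1 h2) := by
        rw [← e3, map_sup, ← e, ← map_sup, sup_eq_left.2 (e4 ▸ inf_le_left)]
      refine hR i (by omega) ?_
      unfold R
      rw [← e2, map_inf, ← a1, ← map_inf, inf_eq_right.2 (t_le_t _ _ _ _ (by omega))]
  have st : ∀ i (h1 : 1 ≤ i) (h2 : i ≤ K),
      (f (b i (by omega))).i < (f (b (i + 1) (by omega))).i := by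
    intro i h1 h2
    have a1 := (key i h1 (by omega)).1.1
    have a2 := (key (i + 1) (by omega) (by omega)).1.1
    have a3 := hm (b_le_b (a := a) i (i + 1) (by omega) (by omega) (by omega))
    rw [le_def] at a3
    by_contra hh
    exact (key i h1 (by omega)).2 (L.ext (by omega) (by omega))
  have lo : ∀ i (h1 : 1 ≤ i) (h2 : i ≤ K + 1), i ≤ (f (b i (by omega))).i := by
    intro i h1
    induction i, h1 using Nat.le_induction with
    | base => intro h2; exact (key 1 le_rfl h2).1.2.2.2.1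
    | succ i h1 ih =>
      intro h2
      have := st i h1 (by omega)
      have := ih (by omega)
      omega
  have hi : ∀ d i (h1 : 1 ≤ i) (h2 : i + d = K + 1), (f (b i (by omega))).i ≤ i := by
    intro d
    induction d with
    | zero => intro i h1 h2; have := (key i h1 (by omega)).1.2.2.2.2; omega
    | succ d ih =>
      intro i h1 h2
      have := st i h1 (by omega)
      have := ih (i + 1) (by omega) (by omega)
      omega
  have fb : ∀ i (h1 : 1 ≤ i) (h2 : i ≤ K + 1), f (b i (by omega)) = b i (by omega) :=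
    fun i h1 h2 => L.ext (le_antisymm (hi (K + 1 - i) i h1 (by omega)) (lo i h1 h2))
      (key i h1 h2).1.1
  have ft : ∀ i (h1 : 1 ≤ i) (h2 : i ≤ K + 1),
      f (t (i + 1) (by omega)) = t (i + 1) (by omega) := fun i h1 h2 =>
    L.ext (by rw [(key i h1 h2).1.2.2.1, fb i h1 h2]; rfl) (key i h1 h2).1.2.1
  have f0 : f (b 0 (by omega)) = b 0 (by omega) := map_bot f
  have fT : f (t (K + 3) le_rfl) = t (K + 3) le_rfl := map_top f
  have t0 : f (t 0 (by omega)) = t 0 (by omega) := by
    have e := congrArg f (tb_inf (a := a) (K := K) 0 (by omega))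
    rw [map_inf, fb _ le_rfl (by omega), f0] at e
    have n := hR 0 (by omega)
    unfold R at n
    rw [f0] at n
    have v := vv (f (t 0 (by omega)))
    rcases inf_spec (f (t 0 (by omega))) (b (0 + 1) (by omega)) with s | s | s
    · exact absurd (e.symm.trans s.2) n
    · exact absurd (congrArg L.i (e.symm.trans s.2)) (by simp)
    · have a1 := s.2.2.2
      have a2 := s.1
      rw [e] at a1
      simp only [le_def, b_i, b_c] at a1 a2
      ext <;> simp only [t_i, t_c] <;> omega
  have bT : f (b (K + 2 + 1) le_rfl) = b (K + 2 + 1) le_rfl := by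
    have e := congrArg f (tb_sup (a := a) (K := K) (K + 2) le_rfl)
    rw [map_sup, ft (K + 1) (by omega) le_rfl, fT] at e
    have n := hR (K + 3) le_rfl
    unfold R at n
    rw [fT] at n
    have v := vv (f (b (K + 2 + 1) le_rfl))
    rcases sup_spec (t (K + 1 + 1) (by omega)) (f (b (K + 2 + 1) le_rfl)) with s | s | s
    · exact absurd (s.2.symm.trans e) n
    · exact absurd (congrArg L.i (s.2.symm.trans e)) (by simp)
    · have a1 := s.2.2.2
      have a2 := s.1
      rw [e] at a1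
      rw [if_neg (by simp)] at a1
      simp only [le_def, t_i, t_c, true_and] at a1 a2
      split_ifs at a1 <;> ext <;> simp only [b_i, b_c] <;> omega
  have v := vv u
  obtain ⟨i, c, ok⟩ := u
  simp only at hu v
  have hi3 : i ≤ K + 3 := by omega
  interval_cases c
  · show f (b i hi3) = b i hi3
    by_cases c1 : i = 0
    · subst c1; exact f0
    · by_cases c2 : i ≤ K + 1
      · exact fb i (by omega) c2
      · by_cases c3 : i = K + 2
        · subst c3
          rw [← tb_inf (K + 2) le_rfl, map_inf, bT, ft (K + 1) (by omega) le_rfl]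
        · obtain rfl : i = K + 2 + 1 := by omega
          exact bT
  · show f (t i hi3) = t i hi3
    by_cases c1 : i = 0
    · subst c1; exact t0
    · by_cases c2 : i = 0 + 1
      · subst c2
        rw [← tb_sup 0 (by omega), map_sup, t0, fb _ le_rfl (by omega)]
      · by_cases c3 : i = K + 3
        · subst c3; exact fT
        · obtain ⟨j, rfl⟩ : ∃ j, i = j + 1 := ⟨i - 1, by omega⟩
          exact ft j (by omega) (by omega)

lemma fills (f : E a K) (h : ¬ R f 0 (by omega)) (y : L a K) (hy : 2 ≤ y.c) :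
    (f y).i = y.i ∧ 2 ≤ (f y).c := by
  have v := vv y
  obtain ⟨e1, e2, e3, e4⟩ := fill y hy (by omega)
  have e1 := congrArg f e1
  have e2 := congrArg f e2
  have e3 := congrArg f e3
  have e4 := congrArg f e4
  rw [map_sup, grid f h (t _ _) (by simp), grid f h (t _ _) (by simp)] at e1
  rw [map_inf, grid f h (t _ _) (by simp), grid f h (b _ _) (by simp)] at e2
  rw [map_sup, grid f h (b _ _) (by simp), grid f h (t _ _) (by simp)] at e3
  rw [map_inf, grid f h (b _ _) (by simp), grid f h (b _ _) (by simp)] at e4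
  have n1 : ¬ f y ≤ t y.i (by omega) := fun hh =>
    absurd (congrArg L.i ((sup_eq_right.2 hh).symm.trans e1)) (by simp)
  have n2 : ¬ t y.i (by omega) ≤ f y := fun hh =>
    absurd (congrArg L.c ((inf_eq_right.2 hh).symm.trans e2)) (by simp)
  have n3 : ¬ f y ≤ b (y.i + 1) (by omega) := fun hh =>
    absurd (congrArg L.c ((sup_eq_right.2 hh).symm.trans e3)) (by simp)
  have n4 : ¬ b (y.i + 1) (by omega) ≤ f y := fun hh =>
    absurd (congrArg L.i ((inf_eq_right.2 hh).symm.trans e4)) (by simp)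
  have p1 : b y.i (by omega) ≤ f y := e2 ▸ inf_le_left
  simp only [le_def, b_i, b_c, t_i, t_c, true_and] at n1 n2 n3 n4 p1
  omega

lemma inj (f : E a K) (h : ¬ R f 0 (by omega)) : Function.Injective f := by
  intro u w e
  by_cases hu : u.c ≤ 1
  · by_cases hw : w.c ≤ 1
    · rwa [grid f h u hu, grid f h w hw] at e
    · have := (fills f h w (by omega)).2
      rw [← e, grid f h u hu] at this
      omega
  · by_cases hw : w.c ≤ 1
    · have := (fills f h u (by omega)).2
      rw [e, grid f h w hw] at this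
      omega
    · have a1 := fills f h u (by omega)
      have a2 := fills f h w (by omega)
      have a3 : u.i = w.i := by rw [← a1.1, e, a2.1]
      by_contra hne
      have a4 : u.c ≠ w.c := fun hh => hne (L.ext a3 hh)
      have a5 : u ⊓ w = b u.i (i_le u) :=
        inf_eq' (by rw [le_def]; omega) (by rw [le_def]; omega) rfl (by simp [a3])
      have a6 := congrArg f a5
      rw [map_inf, ← e, inf_idem, grid f h (b _ _) (by simp)] at a6
      rw [a6] at a1
      simp at a1

def fl (j : Fin (a + 1)) : L a K := ⟨1, j.1 + 2, by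
  have := j.2
  show (1 ≤ K + 3 ∧ j.1 + 2 ≤ 1) ∨ (1 = 1 ∧ 2 ≤ j.1 + 2 ∧ j.1 + 2 ≤ a + 2) ∨
    (2 ≤ 1 ∧ 1 ≤ K + 1 ∧ j.1 + 2 = 2)
  omega⟩

def act (σ : Equiv.Perm (Fin (a + 1))) (u : L a K) : L a K :=
  if h : u.i = 1 ∧ 2 ≤ u.c then fl (σ ⟨u.c - 2, by have := vv u; omega⟩) else u

lemma act_fl (σ : Equiv.Perm (Fin (a + 1))) (j : Fin (a + 1)) :
    act σ (fl j : L a K) = fl (σ j) := by
  simp [act, fl]

lemma cases_fl (u : L a K) : (∃ j, u = fl j) ∨ ¬ (u.i = 1 ∧ 2 ≤ u.c) := by
  by_cases h : u.i = 1 ∧ 2 ≤ u.c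
  · left
    refine ⟨⟨u.c - 2, by have := vv u; omega⟩, L.ext h.1 ?_⟩
    simp only [fl]
    omega
  · exact Or.inr h

lemma act_mono (σ : Equiv.Perm (Fin (a + 1))) {u w : L a K} (h : u ≤ w) : act σ u ≤ act σ w := by
  rcases cases_fl u with ⟨j, rfl⟩ | hu <;> rcases cases_fl w with ⟨k, rfl⟩ | hw
  · have : j = k := by
      simp only [le_def, fl] at h
      ext; omega
    rw [this]
  · rw [act_fl, act, dif_neg hw]
    simp only [le_def, fl] at h ⊢
    omega
  · rw [act_fl, act, dif_neg hu]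
    simp only [le_def, fl] at h ⊢
    omega
  · rw [act, dif_neg hu, act, dif_neg hw]
    exact h

lemma act_inv (σ : Equiv.Perm (Fin (a + 1))) (u : L a K) : act σ.symm (act σ u) = u := by
  rcases cases_fl u with ⟨j, rfl⟩ | hu
  · rw [act_fl, act_fl, Equiv.symm_apply_apply]
  · rw [act.eq_1 σ u, dif_neg hu, act, dif_neg hu]

def iso (σ : Equiv.Perm (Fin (a + 1))) : L a K ≃o L a K where
  toFun := act σ
  invFun := act σ.symm
  left_inv := act_inv σ
  right_inv := act_inv σ.symm
  map_rel_iff' := ⟨fun h => by simpa [act_inv] using act_mono σ.symm h, act_mono σ⟩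

def Φ (σ : Equiv.Perm (Fin (a + 1))) : {f : E a K // Function.Bijective f} :=
  ⟨(iso σ : L a K ≃o L a K), (iso σ).bijective⟩

lemma fl_inj : Function.Injective (fl : Fin (a + 1) → L a K) := by
  intro j k h
  have := congrArg L.c h
  simp only [fl] at this
  ext; omega

lemma notR (f : E a K) (hf : Function.Injective f) : ¬ R f 0 (by omega) := fun h =>
  absurd (congrArg L.c (hf h)) (by simp)

lemma card_aut : Nat.card {f : E a K // Function.Bijective f} = (a + 1).factorial := by
  rw [← Nat.card_congr (Equiv.ofBijective (Φ (a := a) (K := K)) ⟨?_, ?_⟩)]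
  · simp [Fintype.card_perm]
  · intro σ τ h
    ext1 j
    have : act σ (fl j : L a K) = act τ (fl j) := congrArg (fun f => f.1 (fl j)) h
    rw [act_fl, act_fl] at this
    exact fl_inj this
  · rintro ⟨f, hf⟩
    have hn := notR f hf.1
    have ex : ∀ j, ∃ k, f (fl j) = fl k := fun j => by
      have := fills f hn (fl j) (by simp [fl])
      exact (cases_fl _).resolve_right (not_not.2 this)
    choose s hs using ex
    have si : Function.Injective s := fun j k e => fl_inj (hf.1 (by rw [hs, hs, e]))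
    refine ⟨Equiv.ofBijective s (Finite.injective_iff_bijective.1 si), Subtype.ext ?_⟩
    ext1 u
    show act _ u = f u
    rcases cases_fl u with ⟨j, rfl⟩ | hu
    · rw [act_fl, hs]; rfl
    · rw [act, dif_neg hu]
      by_cases hc : u.c ≤ 1
      · exact (grid f hn u hc).symm
      · have a1 := fills f hn u (by omega)
        have v1 := vv u
        have v2 := vv (f u)
        ext <;> omega

lemma card_non : Nat.card {f : E a K // ¬ Function.Bijective f} = 3 * K + a + 9 := by
  rw [← card_L, ← Nat.card_eq_fintype_card]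
  symm
  refine Nat.card_congr (Equiv.ofBijective (fun z => ⟨coll z, fun h => notR _ h.1 ?_⟩) ⟨?_, ?_⟩)
  · show cf z (b 0 (by omega)) = cf z (t 0 (by omega))
    simp [cf]
  · intro z z' h
    have : cf z (b 1 (by omega)) = cf z' (b 1 (by omega)) :=
      congrArg (fun f => f.1 (b 1 (by omega))) h
    simpa [cf] using this
  · rintro ⟨f, hf⟩
    have : R f 0 (by omega) := by
      by_contra h
      exact hf (Finite.injective_iff_bijective.1 (inj f h))
    exact ⟨_, Subtype.ext (collapsed f this).symm⟩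

lemma card_end : Nat.card (E a K) = (a + 1).factorial + (3 * K + a + 9) := by
  classical
  have : Finite (E a K) := Finite.of_injective _ DFunLike.coe_injective
  rw [← card_aut (K := K), ← card_non, ← Nat.card_sum,
    Nat.card_congr (Equiv.sumCompl (fun f : E a K => Function.Bijective f))]

end Pool.Agent.H.MP_e86a57_co
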